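import Pool.Agent.W_MP_4f2e6f_h52.Ram

/-!
A kernel-friendly check of the independent sets of a gadget graph (bit masks, branching over the
vertices), and the two gadget theorems in terms of this check.
-/

set_option autoImplicit false

namespace Pool.Agent.W_4f2e6f_h25

open Pool.Agent.W_MP_4f2e6f_h52

/-- the bit mask of `f` on `[0, n)` -/
def mk (f : ℕ → Bool) : ℕ → ℕ
  | 0 => 0
  | n + 1 => (if f n = true then 2 ^ n else 0) + mk f n

/-- the number of elements of `f` in `[0, n)` -/
def cnt (f : ℕ → Bool) : ℕ → ℕ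
  | 0 => 0
  | n + 1 => (if f n = true then 1 else 0) + cnt f n

theorem mk_lt (f : ℕ → Bool) (n : ℕ) : mk f n < 2 ^ n := by
  induction n with
  | zero => simp [mk]
  | succ n ih =>
    rw [mk, pow_succ]
    split_ifs <;> omega

theorem mk_testBit (f : ℕ → Bool) (n j : ℕ) : (mk f n).testBit j = (decide (j < n) && f j) := by
  induction n with
  | zero => simp [mk]
  | succ n ih =>
    rw [mk]
    by_cases hf : f n = true
    · rw [if_pos hf]
      rcases lt_trichotomy j n with h | h | h
      · rw [Nat.testBit_two_pow_add_gt h, ih]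
        simp [h, Nat.lt_succ_of_lt h]
      · subst h
        rw [Nat.testBit_two_pow_add_eq, ih]
        simp [hf]
      · have h1 := mk_lt f (n + 1)
        rw [mk, if_pos hf] at h1
        rw [Nat.testBit_lt_two_pow (lt_of_lt_of_le h1 (Nat.pow_le_pow_right (by norm_num) h))]
        have h2 : ¬ j < n + 1 := by omega
        simp [h2]
    · rw [if_neg hf, zero_add, ih]
      by_cases h : j < n
      · simp [h, Nat.lt_succ_of_lt h]
      · by_cases h' : j = n
        · subst h'
          simp at hf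
          simp [hf]
        · have h2 : ¬ j < n + 1 := by omega
          simp [h, h2]

/-- the branching check -/
def go (adj : ℕ → ℕ) (tst : ℕ → ℕ → Bool) : ℕ → ℕ → ℕ → ℕ → Bool
  | 0, _, cur, c => tst cur c
  | r + 1, k, cur, c => go adj tst r (k + 1) cur c &&
      (!Nat.beq (Nat.land (adj k) cur) 0 || go adj tst r (k + 1) (2 ^ k + cur) (1 + c))

theorem go_sound (adj : ℕ → ℕ) (tst : ℕ → ℕ → Bool) (f : ℕ → Bool)
    (hind : ∀ k j, j < k → f k = true → f j = true → (adj k).testBit j = false) :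
    ∀ r k, go adj tst r k (mk f k) (cnt f k) = true → tst (mk f (k + r)) (cnt f (k + r)) = true := by
  intro r
  induction r with
  | zero => intro k h; exact h
  | succ r ih =>
    intro k h
    rw [go, Bool.and_eq_true] at h
    have e : k + (r + 1) = (k + 1) + r := by omega
    rw [e]
    apply ih
    by_cases hf : f k = true
    · have hz : Nat.land (adj k) (mk f k) = 0 := by
        apply Nat.eq_of_testBit_eq
        intro j
        change (adj k &&& mk f k).testBit j = _
        rw [Nat.testBit_land, mk_testBit, Nat.zero_testBit]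
        by_cases hj : j < k
        · by_cases hfj : f j = true
          · rw [hind k j hj hf hfj]; rfl
          · simp at hfj
            simp [hfj]
        · simp [hj]
      have h2 := h.2
      rw [hz] at h2
      have h3 : (!Nat.beq 0 0) = false := rfl
      rw [h3, Bool.false_or] at h2
      rw [mk, cnt, if_pos hf, if_pos hf]
      exact h2
    · rw [mk, cnt, if_neg hf, if_neg hf, zero_add, zero_add]
      exact h.1

/-- the test for one independent set -/
def tst (K : ℕ) (cs : List (ℕ × List ℕ)) (cur c : ℕ) : Bool :=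
  cs.any fun p => Nat.ble c (p.1 + K) && p.2.all fun m => !Nat.beq (Nat.land m cur) 0

theorem cnt_eq (f : ℕ → Bool) (n : ℕ) : cnt f n = ∑ i ∈ Finset.range n, if f i = true then 1 else 0 := by
  induction n with
  | zero => simp [cnt]
  | succ n ih => rw [cnt, Finset.sum_range_succ, ih, add_comm]

open Classical in
/-- the indicator of a set of vertices -/
noncomputable def ind {q : ℕ} (S : Finset (Fin q)) (i : ℕ) : Bool :=
  decide (∃ h : i < q, (⟨i, h⟩ : Fin q) ∈ S)

theorem ind_iff {q : ℕ} (S : Finset (Fin q)) (i : ℕ) :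
    ind S i = true ↔ ∃ h : i < q, (⟨i, h⟩ : Fin q) ∈ S := by
  classical
  simp [ind]

theorem cnt_ind {q : ℕ} (S : Finset (Fin q)) : cnt (ind S) q = S.card := by
  classical
  rw [cnt_eq, Finset.sum_range]
  have h1 : ∀ x : Fin q, (if ind S x = true then 1 else 0) = if x ∈ S then 1 else 0 := by
    intro x
    have : ind S x = true ↔ x ∈ S := by
      rw [ind_iff]
      exact ⟨fun ⟨_, h⟩ => h, fun h => ⟨x.2, h⟩⟩
    by_cases hx : x ∈ S
    · rw [if_pos (this.2 hx), if_pos hx]
    · rw [if_neg (fun h => hx (this.1 h)), if_neg hx]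
  rw [Finset.sum_congr rfl (fun x _ => h1 x), Finset.sum_ite_mem, Finset.univ_inter,
    Finset.card_eq_sum_ones]

/-- the exact condition on the independent sets of a gadget follows from the check -/
theorem h3_gen (q K : ℕ) (adj : ℕ → ℕ) (cs : List (ℕ × List ℕ)) (E : SimpleGraph (Fin q))
    (hE : ∀ x y : Fin q, (adj x).testBit y = true → E.Adj x y)
    (hm : Finset (Fin 4) → ℕ) (types P : Finset (Fin 4) → Prop)
    (hcs : ∀ p ∈ cs, ∃ I : Finset (Fin 4), P I ∧ p.1 = I.card ∧
      ∀ i ∈ I, ∀ A, types A → i ∈ A → hm A ∈ p.2)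
    (hgo : go adj (tst K cs) q 0 0 0 = true) (S : Finset (Fin q)) (hS : Ind E S) :
    ∃ I : Finset (Fin 4), P I ∧ S.card ≤ I.card + K ∧
      ∀ i ∈ I, ∀ A, types A → i ∈ A → ∃ x ∈ S, (hm A).testBit x = true := by
  have h := go_sound adj (tst K cs) (ind S) (by
    intro k j hjk hk hj
    rw [ind_iff] at hk hj
    obtain ⟨hk1, hk2⟩ := hk
    obtain ⟨hj1, hj2⟩ := hj
    by_contra hcon
    rw [Bool.not_eq_false] at hcon
    exact hS _ hk2 _ hj2 (hE ⟨k, hk1⟩ ⟨j, hj1⟩ hcon)) q 0 hgo
  rw [zero_add, cnt_ind, tst, List.any_eq_true] at h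
  obtain ⟨p, hp, h⟩ := h
  rw [Bool.and_eq_true, Nat.ble_eq, List.all_eq_true] at h
  obtain ⟨I, hPI, hI, hcov⟩ := hcs p hp
  refine ⟨I, hPI, by rw [← hI]; exact h.1, ?_⟩
  intro i hi A hA hiA
  have h1 := h.2 _ (hcov i hi A hA hiA)
  rw [Bool.not_eq_true'] at h1
  have h2 : Nat.land (hm A) (mk (ind S) q) ≠ 0 := by
    intro h0
    rw [h0] at h1
    exact absurd h1 (by decide)
  obtain ⟨j, hj⟩ := Nat.exists_testBit_of_ne_zero h2
  have hj' : ((hm A) &&& (mk (ind S) q)).testBit j = true := hj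
  rw [Nat.testBit_land, Bool.and_eq_true, mk_testBit, Bool.and_eq_true, decide_eq_true_eq,
    ind_iff] at hj'
  obtain ⟨h4, h5, h6, h7⟩ := hj'
  exact ⟨⟨j, h6⟩, h7, h4⟩

/-- the graph of a symmetric list of bit masks -/
def grM (q : ℕ) (adj : ℕ → ℕ) (hs : ∀ x y : Fin q, (adj x).testBit y = (adj y).testBit x)
    (hl : ∀ x : Fin q, (adj x).testBit x = false) : SimpleGraph (Fin q) where
  Adj x y := (adj x).testBit y = true
  symm := ⟨fun x y h => by rw [hs y x]; exact h⟩
  loopless := ⟨fun x h => by rw [hl x] at h; exact Bool.noConfusion h⟩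

/-- attachments given by bit masks -/
def hitM {q : ℕ} (hm : Finset (Fin 4) → ℕ) (x : Fin q) (A : Finset (Fin 4)) : Prop :=
  (hm A).testBit x = true

/-- independent sets of the star -/
def PS (I : Finset (Fin 4)) : Prop := 0 ∈ I → ¬ (1 ∈ I ∨ 2 ∈ I ∨ 3 ∈ I)

/-- the common part of the data of a gadget -/
structure Gad (q K : ℕ) (adj : ℕ → ℕ) (cs : List (ℕ × List ℕ)) (hm : Finset (Fin 4) → ℕ)
    (types P : Finset (Fin 4) → Prop) : Prop where
  hs : ∀ x y : Fin q, (adj x).testBit y = (adj y).testBit x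
  hl : ∀ x : Fin q, (adj x).testBit x = false
  tf : ∀ a b c : Fin q, (adj a).testBit b = true → (adj b).testBit c = true →
    (adj a).testBit c = false
  c1 : ∀ (x : Fin q) (A B : Finset (Fin 4)), types A → types B → (hm A).testBit x = true →
    (hm B).testBit x = true → ∃ i, i ∈ A ∧ i ∈ B
  c2 : ∀ (x y : Fin q) (A : Finset (Fin 4)), types A → (adj x).testBit y = true →
    (hm A).testBit x = true → (hm A).testBit y = false
  hcs : ∀ p ∈ cs, ∃ I : Finset (Fin 4), P I ∧ p.1 = I.card ∧
    ∀ i ∈ I, ∀ A, types A → i ∈ A → hm A ∈ p.2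
  hgo : go adj (tst K cs) q 0 0 0 = true

section
variable {V : Type*} {q K : ℕ} {adj : ℕ → ℕ} {cs : List (ℕ × List ℕ)} {hm : Finset (Fin 4) → ℕ}

theorem gad_add [Fintype V] {types P : Finset (Fin 4) → Prop} (D : Gad q K adj cs hm types P)
    (G : SimpleGraph V) (c : Fin 4 → V) (a : ℕ) (hG : TF G) (hA : AL G a)
    (hc : Function.Injective c) (h4 : ∀ w, w ∉ Set.range c → types (tr G c w))
    (hP : ∀ I, P I → ∀ i ∈ I, ∀ j ∈ I, ¬ G.Adj (c i) (c j)) :
    TF (graph' G c (grM q adj D.hs D.hl) (hitM hm)) ∧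
      AL (graph' G c (grM q adj D.hs D.hl) (hitM hm)) (a + K) := by
  constructor
  · refine graph'_TF G c hG _ (hitM hm) types ?_ h4 ?_ ?_
    · intro x y z h1 h2 h3
      have h1 : (adj x).testBit y = true := h1
      have h2 : (adj y).testBit z = true := h2
      have h3 : (adj x).testBit z = true := h3
      rw [D.tf x y z h1 h2] at h3
      exact Bool.noConfusion h3
    · intro x A B hA hB hx hx'
      exact D.c1 x A B hA hB hx hx'
    · intro x y A hA hxy hx hy
      have hy : (hm A).testBit y = true := hy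
      rw [D.c2 x y A hA hxy hx] at hy
      exact Bool.noConfusion hy
  · refine graph'_AL G c hc a K hA _ (hitM hm) types h4 ?_
    intro S hS
    obtain ⟨I, h1, h2, h3⟩ := h3_gen q K adj cs (grM q adj D.hs D.hl) (fun x y h => h) hm types P
      D.hcs D.hgo S hS
    exact ⟨I, hP I h1, h2, h3⟩

/-- a 4-cycle is replaced by the gadget -/
theorem gad_cycle [Fintype V] (D : Gad q K adj cs hm types1 types1)
    (G : SimpleGraph V) (c : Fin 4 → V) (a : ℕ) (hG : TF G) (hA : AL G a)
    (hc : Function.Injective c) (h01 : G.Adj (c 0) (c 1)) (h02 : G.Adj (c 0) (c 2))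
    (h13 : G.Adj (c 1) (c 3)) (h23 : G.Adj (c 2) (c 3)) :
    TF (graph' G c (grM q adj D.hs D.hl) (hitM hm)) ∧
      AL (graph' G c (grM q adj D.hs D.hl) (hitM hm)) (a + K) := by
  refine gad_add D G c a hG hA hc ?_ ?_
  · intro w _
    refine ⟨?_, ?_, ?_, ?_⟩ <;> rintro ⟨hi, hj⟩ <;> rw [mem_tr] at hi hj
    · exact hG _ _ _ hi h01 hj
    · exact hG _ _ _ hi h02 hj
    · exact hG _ _ _ hi h13 hj
    · exact hG _ _ _ hi h23 hj
  · rintro I ⟨t01, t02, t13, t23⟩ i hi j hj hij
    have a03 : ¬ G.Adj (c 0) (c 3) := hG _ _ _ h01 h13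
    have a12 : ¬ G.Adj (c 1) (c 2) := hG _ _ _ (G.adj_symm h01) h02
    fin_cases i <;> fin_cases j <;> simp only [Fin.zero_eta, Fin.mk_one, Fin.reduceFinMk] at hi hj hij
    · exact G.loopless.irrefl _ hij
    · exact t01 ⟨hi, hj⟩
    · exact t02 ⟨hi, hj⟩
    · exact a03 hij
    · exact t01 ⟨hj, hi⟩
    · exact G.loopless.irrefl _ hij
    · exact a12 hij
    · exact t13 ⟨hi, hj⟩
    · exact t02 ⟨hj, hi⟩
    · exact a12 (G.adj_symm hij)
    · exact G.loopless.irrefl _ hij
    · exact t23 ⟨hi, hj⟩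
    · exact a03 (G.adj_symm hij)
    · exact t13 ⟨hj, hi⟩
    · exact t23 ⟨hj, hi⟩
    · exact G.loopless.irrefl _ hij

/-- a star without 4-cycles is replaced by the gadget -/
theorem gad_star [Fintype V] (D : Gad q K adj cs hm types2 PS)
    (G : SimpleGraph V) (c : Fin 4 → V) (a : ℕ) (hG : TF G) (hA : AL G a)
    (hc : Function.Injective c) (h01 : G.Adj (c 0) (c 1)) (h02 : G.Adj (c 0) (c 2))
    (h03 : G.Adj (c 0) (c 3))
    (hno : ∀ w, w ∉ Set.range c → ∀ i j : Fin 4, i ≠ j → i ≠ 0 → j ≠ 0 →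
      ¬ (G.Adj w (c i) ∧ G.Adj w (c j))) :
    TF (graph' G c (grM q adj D.hs D.hl) (hitM hm)) ∧
      AL (graph' G c (grM q adj D.hs D.hl) (hitM hm)) (a + K) := by
  refine gad_add D G c a hG hA hc ?_ ?_
  · intro w hw i hi j hj
    by_contra hij
    rw [mem_tr] at hi hj
    by_cases i0 : i = 0
    · subst i0
      fin_cases j
      · exact hij rfl
      · exact hG _ _ _ hi h01 hj
      · exact hG _ _ _ hi h02 hj
      · exact hG _ _ _ hi h03 hj
    · by_cases j0 : j = 0
      · subst j0
        fin_cases i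
        · exact hij rfl
        · exact hG _ _ _ hj h01 hi
        · exact hG _ _ _ hj h02 hi
        · exact hG _ _ _ hj h03 hi
      · exact hno w hw i j hij i0 j0 ⟨hi, hj⟩
  · intro I hI i hi j hj hij
    have a12 : ¬ G.Adj (c 1) (c 2) := hG _ _ _ (G.adj_symm h01) h02
    have a13 : ¬ G.Adj (c 1) (c 3) := hG _ _ _ (G.adj_symm h01) h03
    have a23 : ¬ G.Adj (c 2) (c 3) := hG _ _ _ (G.adj_symm h02) h03
    fin_cases i <;> fin_cases j <;> simp only [Fin.zero_eta, Fin.mk_one, Fin.reduceFinMk] at hi hj hij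
    · exact G.loopless.irrefl _ hij
    · exact hI hi (Or.inl hj)
    · exact hI hi (Or.inr (Or.inl hj))
    · exact hI hi (Or.inr (Or.inr hj))
    · exact hI hj (Or.inl hi)
    · exact G.loopless.irrefl _ hij
    · exact a12 hij
    · exact a13 hij
    · exact hI hj (Or.inr (Or.inl hi))
    · exact a12 (G.adj_symm hij)
    · exact G.loopless.irrefl _ hij
    · exact a23 hij
    · exact hI hj (Or.inr (Or.inr hi))
    · exact a13 (G.adj_symm hij)
    · exact a23 (G.adj_symm hij)
    · exact G.loopless.irrefl _ hij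

end

end Pool.Agent.W_4f2e6f_h25
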