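import Pool.Agent.W_4f2e6f_h25.Chk

/-!
The gadgets for windows of three and of four differences (found with a SAT solver, checked here by
the kernel).
-/

set_option autoImplicit false

namespace Pool.Agent.W_4f2e6f_h25

open Pool.Agent.W_MP_4f2e6f_h52

/-- the code of a trace -/
def codeA (A : Finset (Fin 4)) : ℕ :=
  (if (0 : Fin 4) ∈ A then 1 else 0) + (if (1 : Fin 4) ∈ A then 2 else 0) +
    (if (2 : Fin 4) ∈ A then 4 else 0) + (if (3 : Fin 4) ∈ A then 8 else 0)

def hmT (tbl : List ℕ) (A : Finset (Fin 4)) : ℕ := tbl.getD (codeA A) 0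

instance : DecidablePred types1 := fun A => by unfold types1; infer_instance
instance : DecidablePred types2 := fun A => by unfold types2; infer_instance
instance : DecidablePred PS := fun A => by unfold PS; infer_instance

def adjC3 (k : ℕ) : ℕ := [50244, 82272, 6409, 9412, 4576, 35858, 2075, 83992, 33302, 77056, 4649, 740, 74772, 53768, 8323, 74017, 37506].getD k 0
def tblC3 : List ℕ := [0, 73748, 4416, 0, 553, 0, 20832, 0, 35842, 35858, 0, 0, 0, 0, 0, 0]
def csC3 : List (ℕ × List ℕ) := [(0, []), (1, [73748, 35858]), (1, [4416, 20832]), (1, [553, 20832]), (1, [35842, 35858]), (2, [73748, 35842, 35858]), (2, [4416, 553, 20832])]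

theorem gadC3 : Gad 17 3 adjC3 csC3 (hmT tblC3) types1 types1 where
  hs := by decide +kernel
  hl := by decide +kernel
  tf := by decide +kernel
  c1 := by decide +kernel
  c2 := by decide +kernel
  hcs := by decide +kernel
  hgo := by decide +kernel

def adjS3 (k : ℕ) : ℕ := [53840, 47680, 12736, 17248, 75777, 38920, 1039, 85508, 100364, 139, 45248, 434, 66599, 17430, 8329, 1315, 4496].getD k 0
def tblS3 : List ℕ := [0, 131, 1808, 0, 73824, 0, 0, 0, 51204, 0, 0, 0, 0, 0, 0, 0]
def csS3 : List (ℕ × List ℕ) := [(0, []), (1, [1808]), (1, [73824]), (1, [51204]), (1, [131]), (2, [1808, 73824]), (2, [1808, 51204]), (2, [73824, 51204]), (3, [1808, 73824, 51204])]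

theorem gadS3 : Gad 17 3 adjS3 csS3 (hmT tblS3) types2 PS where
  hs := by decide +kernel
  hl := by decide +kernel
  tf := by decide +kernel
  c1 := by decide +kernel
  c2 := by decide +kernel
  hcs := by decide +kernel
  hgo := by decide +kernel

def adjC4 (k : ℕ) : ℕ := [1388800, 3474560, 1458312, 527652, 3150624, 368664, 2381824, 14598, 32921, 804880, 143370, 1180360, 525521, 2114721, 107076, 1720608, 671779, 2198532, 615, 2200072, 34839, 663634].getD k 0
def tblC4 : List ℕ := [0, 2134532, 147489, 0, 525456, 0, 671779, 0, 1122624, 2200068, 0, 0, 0, 0, 0, 0]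
def csC4 : List (ℕ × List ℕ) := [(0, []), (1, [2134532, 2200068]), (1, [147489, 671779]), (1, [525456, 671779]), (1, [1122624, 2200068]), (2, [2134532, 1122624, 2200068]), (2, [147489, 525456, 671779])]

theorem gadC4 : Gad 22 4 adjC4 csC4 (hmT tblC4) types1 types1 where
  hs := by decide +kernel
  hl := by decide +kernel
  tf := by decide +kernel
  c1 := by decide +kernel
  c2 := by decide +kernel
  hcs := by decide +kernel
  hgo := by decide +kernel

def adjS4 (k : ℕ) : ℕ := [2173188, 274944, 262345, 1104388, 420352, 788096, 627204, 2140196, 425985, 2097274, 1153056, 525465, 2229322, 1573011, 2687000, 1480, 410689, 1642768, 2162998, 157792, 2237448, 1331841].getD k 0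
def tblS4 : List ℕ := [0, 2097160, 36913, 0, 9988, 0, 0, 0, 1067074, 0, 0, 0, 0, 0, 0, 0]
def csS4 : List (ℕ × List ℕ) := [(0, []), (1, [36913]), (1, [9988]), (1, [1067074]), (1, [2097160]), (2, [36913, 9988]), (2, [36913, 1067074]), (2, [9988, 1067074]), (3, [36913, 9988, 1067074])]

theorem gadS4 : Gad 22 4 adjS4 csS4 (hmT tblS4) types2 PS where
  hs := by decide +kernel
  hl := by decide +kernel
  tf := by decide +kernel
  c1 := by decide +kernel
  c2 := by decide +kernel
  hcs := by decide +kernel
  hgo := by decide +kernel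

end Pool.Agent.W_4f2e6f_h25
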