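import Pool.Agent.W_4f2e6f_h25.Data

/-!
The gadgets for windows of five differences (found with a SAT solver by helper52, checked here by the
kernel).
-/

set_option autoImplicit false

namespace Pool.Agent.W_4f2e6f_h25

open Pool.Agent.W_MP_4f2e6f_h52

def adjC5 (k : ℕ) : ℕ := [5462, 10921, 78119073, 72613970, 35686441, 17843222, 17433225, 33882438, 72386689, 77612098, 33884705, 17433874, 85016577, 102924290, 5116448, 9249040, 4363392, 8480832, 18924680, 34654276, 11014440, 5513748, 27345160, 38961668, 38017120, 25699472, 13068].getD k 0
def tblC5 : List ℕ := [0, 35717161, 17956886, 0, 4232320, 0, 16909590, 0, 8415296, 33622569, 0, 0, 0, 0, 0, 0]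
def csC5 : List (ℕ × List ℕ) := [(0, []), (1, [35717161, 33622569]), (1, [17956886, 16909590]), (1, [4232320, 16909590]), (1, [8415296, 33622569]), (2, [35717161, 8415296, 33622569]), (2, [17956886, 4232320, 16909590])]

theorem gadC5 : Gad 27 5 adjC5 csC5 (hmT tblC5) types1 types1 where
  hs := by decide +kernel
  hl := by decide +kernel
  tf := by decide +kernel
  c1 := by decide +kernel
  c2 := by decide +kernel
  hcs := by decide +kernel
  hgo := by decide +kernel

def adjS5 (k : ℕ) : ℕ := [68358496, 17211592, 34193808, 1659650, 1455172, 845953, 8931859, 3151398, 4467725, 37757128, 75514256, 18878816, 12585113, 10486578, 6292588, 68157478, 17039373, 34078739, 100729138, 84017260, 50364569, 100690048, 83907328, 50345024, 14223362, 11928068, 7111681].getD k 0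
def tblS5 : List ℕ := [0, 0, 38347776, 0, 76695552, 0, 0, 0, 19173888, 0, 0, 0, 0, 0, 0, 0]
def csS5 : List (ℕ × List ℕ) := [(0, []), (1, [38347776]), (1, [76695552]), (1, [19173888]), (1, [0]), (2, [38347776, 76695552]), (2, [38347776, 19173888]), (2, [76695552, 19173888]), (3, [38347776, 76695552, 19173888])]

theorem gadS5 : Gad 27 5 adjS5 csS5 (hmT tblS5) types2 PS where
  hs := by decide +kernel
  hl := by decide +kernel
  tf := by decide +kernel
  c1 := by decide +kernel
  c2 := by decide +kernel
  hcs := by decide +kernel
  hgo := by decide +kernel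

end Pool.Agent.W_4f2e6f_h25
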