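import Pool.Agent.W_4f2e6f_h25.Data5

/-!
The gadgets for windows of six differences: the graph of both is the circulant graph on `ℤ/33` with
distances `1, 6, 10, 15` (found with a SAT solver by helper52, checked here by the kernel).
-/

set_option autoImplicit false

namespace Pool.Agent.W_4f2e6f_h25

open Pool.Agent.W_MP_4f2e6f_h52

def adjC6 (k : ℕ) : ℕ := [4437869634, 285804677, 571609354, 1143218708, 2286437416, 4572874832, 555815073, 1111630146, 2223260292, 4446520584, 303106577, 606213154, 1212426308, 2424852616, 4849705232, 1109475873, 2218951746, 4437903492, 285872393, 571744786, 1143489572, 2286979144, 4573958288, 557981985, 1115963970, 2231927940, 4463855880, 337777169, 675554338, 1351108676, 2702217352, 5404434704, 2218934817].getD k 0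
def tblC6 : List ℕ := [0, 2214855332, 1208551680, 0, 4312834064, 0, 4312836368, 0, 2249730, 2214871716, 0, 0, 0, 0, 0, 0]
def csC6 : List (ℕ × List ℕ) := [(0, []), (1, [2214855332, 2214871716]), (1, [1208551680, 4312836368]), (1, [4312834064, 4312836368]), (1, [2249730, 2214871716]), (2, [2214855332, 2249730, 2214871716]), (2, [1208551680, 4312834064, 4312836368])]

theorem gadC6 : Gad 33 6 adjC6 csC6 (hmT tblC6) types1 types1 where
  hs := by decide +kernel
  hl := by decide +kernel
  tf := by decide +kernel
  c1 := by decide +kernel
  c2 := by decide +kernel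
  hcs := by decide +kernel
  hgo := by decide +kernel

def adjS6 (k : ℕ) : ℕ := [4437869634, 285804677, 571609354, 1143218708, 2286437416, 4572874832, 555815073, 1111630146, 2223260292, 4446520584, 303106577, 606213154, 1212426308, 2424852616, 4849705232, 1109475873, 2218951746, 4437903492, 285872393, 571744786, 1143489572, 2286979144, 4573958288, 557981985, 1115963970, 2231927940, 4463855880, 337777169, 675554338, 1351108676, 2702217352, 5404434704, 2218934817].getD k 0
def tblS6 : List ℕ := [0, 75792532, 2152729089, 0, 167854120, 0, 0, 0, 5371331840, 0, 0, 0, 0, 0, 0, 0]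
def csS6 : List (ℕ × List ℕ) := [(0, []), (1, [2152729089]), (1, [167854120]), (1, [5371331840]), (1, [75792532]), (2, [2152729089, 167854120]), (2, [2152729089, 5371331840]), (2, [167854120, 5371331840]), (3, [2152729089, 167854120, 5371331840])]

theorem gadS6 : Gad 33 6 adjS6 csS6 (hmT tblS6) types2 PS where
  hs := by decide +kernel
  hl := by decide +kernel
  tf := by decide +kernel
  c1 := by decide +kernel
  c2 := by decide +kernel
  hcs := by decide +kernel
  hgo := by decide +kernel

end Pool.Agent.W_4f2e6f_h25
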