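import Pool.Agent.W_4f2e6f_h25.Data6

/-!
Windows of consecutive differences of the Ramsey numbers `R(3, s)`.
-/

set_option autoImplicit false

namespace Pool.Agent.W_4f2e6f_h25

open Pool.Agent.W_MP_4f2e6f_h52

variable {q K : ℕ} {adjC adjS : ℕ → ℕ} {csC csS : List (ℕ × List ℕ)}
  {hmC hmS : Finset (Fin 4) → ℕ}

/-- one application of the gadgets -/
theorem stepK (DC : Gad q K adjC csC hmC types1 types1) (DS : Gad q K adjS csS hmS types2 PS)
    {V : Type} [Fintype V] (G : SimpleGraph V) (a : ℕ) (hG : TF G) (hA : AL G a)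
    (hcard : 6 ≤ Fintype.card V) : Good (Fintype.card V + q - 4) (a + K + 1) := by
  classical
  obtain ⟨H, hGH, hH, hd⟩ := exists_max G hG
  have hHA : AL H a := by
    intro S hS
    apply hA
    intro x hx y hy hxy
    exact hS x hx y hy (hGH hxy)
  by_cases h4 : ∃ x y z t, H.Adj x y ∧ H.Adj x z ∧ H.Adj y t ∧ H.Adj z t ∧ x ≠ t ∧ y ≠ z
  · obtain ⟨x, y, z, t, hxy, hxz, hyt, hzt, hxt, hyz⟩ := h4
    have hc : Function.Injective (![x, y, z, t] : Fin 4 → V) :=
      inj4 (H.ne_of_adj hxy) (H.ne_of_adj hxz) hxt hyz (H.ne_of_adj hyt) (H.ne_of_adj hzt)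
    obtain ⟨h1, h2⟩ := gad_cycle DC H ![x, y, z, t] a hH hHA hc hxy hxz hyt hzt
    refine good_of_type _ _ ?_ _ h1 h2
    have := card_graph' (q := q) (![x, y, z, t] : Fin 4 → V) hc
    omega
  · push Not at h4
    obtain ⟨w, v1, v2, v3, a1, a2, a3, n12, n13, n23⟩ := exists_deg3 H hcard hd
    have hc : Function.Injective (![w, v1, v2, v3] : Fin 4 → V) :=
      inj4 (H.ne_of_adj a1) (H.ne_of_adj a2) (H.ne_of_adj a3) n12 n13 n23
    have hv : ∀ i : Fin 4, i ≠ 0 → H.Adj w ((![w, v1, v2, v3] : Fin 4 → V) i) := by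
      intro i hi
      fin_cases i
      · exact absurd rfl hi
      · exact a1
      · exact a2
      · exact a3
    obtain ⟨h1, h2⟩ := gad_star DS H ![w, v1, v2, v3] a hH hHA hc a1 a2 a3 (by
      intro u hu i j hij hi hj ⟨hui, huj⟩
      have hwu : w ≠ u := fun h => hu ⟨0, h⟩
      exact hij (hc (h4 w _ _ u (hv i hi) (hv j hj) (H.adj_symm hui) (H.adj_symm huj) hwu)))
    refine good_of_type _ _ ?_ _ h1 h2
    have := card_graph' (q := q) (![w, v1, v2, v3] : Fin 4 → V) hc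
    omega

/-- the consequence for the function `R` -/
theorem mainK (DC : Gad q K adjC csC hmC types1 types1) (DS : Gad q K adjS csS hmS types2 PS)
    (R : ℕ → ℕ) (hR : ∀ t : ℕ, R t = sInf {n : ℕ | ∀ G : SimpleGraph (Fin n),
    ¬ G.CliqueFree 3 ∨ ¬ Gᶜ.CliqueFree t}) (t : ℕ) (ht : 4 ≤ t) : R t + q ≤ R (t + K) + 4 := by
  have hset : ∀ t n : ℕ, n ∈ {n : ℕ | ∀ G : SimpleGraph (Fin n),
      ¬ G.CliqueFree 3 ∨ ¬ Gᶜ.CliqueFree t} ↔ ¬ Good n t := by
    intro t n
    rw [Set.mem_setOf_eq, Good]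
    push Not
    exact forall_congr' fun G => imp_iff_not_or.symm
  have hgood : ∀ t n : ℕ, n < R t ↔ Good n t := by
    intro t n
    constructor
    · intro h
      by_contra hng
      rw [hR] at h
      exact Nat.notMem_of_lt_sInf h ((hset t n).2 hng)
    · intro h
      by_contra hlt
      push Not at hlt
      have hne : {n : ℕ | ∀ G : SimpleGraph (Fin n),
          ¬ G.CliqueFree 3 ∨ ¬ Gᶜ.CliqueFree t}.Nonempty := by
        obtain ⟨N, hN⟩ := not_good_large t
        exact ⟨N, (hset t N).2 hN⟩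
      have hmem := Nat.sInf_mem hne
      rw [← hR t] at hmem
      exact (hset t _).1 hmem (good_mono h hlt)
  have h6 : 6 < R t := (hgood t 6).2 (good_mono' good_6_4 ht)
  obtain ⟨G, h1, h2⟩ := (hgood t (R t - 1)).1 (by omega)
  obtain ⟨a, rfl⟩ : ∃ a, t = a + 1 := ⟨t - 1, by omega⟩
  have h3 := stepK DC DS G a ((TF_iff _).1 h1) ((AL_iff _ _).1 h2) (by rw [Fintype.card_fin]; omega)
  rw [Fintype.card_fin] at h3
  have h4 := (hgood _ _).2 h3
  have e : a + K + 1 = a + 1 + K := by omega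
  rw [e] at h4
  omega

/-- the windows of any length -/
theorem windows (R : ℕ → ℕ) (hR : ∀ t : ℕ, R t = sInf {n : ℕ | ∀ G : SimpleGraph (Fin n),
    ¬ G.CliqueFree 3 ∨ ¬ Gᶜ.CliqueFree t}) (t : ℕ) (ht : 4 ≤ t) (m : ℕ) :
    R t + 29 * m / 6 ≤ R (t + m) + (if m % 6 ≤ 1 then 0 else 1) := by
  have h1 : ∀ t, 4 ≤ t → R t + 4 ≤ R (t + 1) := fun t ht =>
    Pool.Agent.W_MP_4f2e6f_h52.main R hR t ht
  have h3 : ∀ t, 4 ≤ t → R t + 13 ≤ R (t + 3) := by
    intro t ht
    have := mainK gadC3 gadS3 R hR t ht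
    omega
  have h4 : ∀ t, 4 ≤ t → R t + 18 ≤ R (t + 4) := by
    intro t ht
    have := mainK gadC4 gadS4 R hR t ht
    omega
  have h5 : ∀ t, 4 ≤ t → R t + 23 ≤ R (t + 5) := by
    intro t ht
    have := mainK gadC5 gadS5 R hR t ht
    omega
  have h6 : ∀ t, 4 ≤ t → R t + 29 ≤ R (t + 6) := by
    intro t ht
    have := mainK gadC6 gadS6 R hR t ht
    omega
  have key : ∀ j : ℕ, R t + 29 * j ≤ R (t + 6 * j) := by
    intro j
    induction j with
    | zero => simp
    | succ j ih =>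
      have := h6 (t + 6 * j) (by omega)
      have e : t + 6 * (j + 1) = t + 6 * j + 6 := by ring
      rw [e]
      omega
  obtain ⟨j, r, hr, rfl⟩ : ∃ j r, r < 6 ∧ m = 6 * j + r := ⟨m / 6, m % 6, by omega, by omega⟩
  have hk := key j
  have e0 : (6 * j + r) % 6 = r := by omega
  rw [e0]
  have e1 : t + (6 * j + r) = t + 6 * j + r := by ring
  rw [e1]
  have hcase : r = 0 ∨ r = 1 ∨ r = 2 ∨ r = 3 ∨ r = 4 ∨ r = 5 := by omega
  rcases hcase with rfl | rfl | rfl | rfl | rfl | rfl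
  · rw [if_pos (by norm_num)]
    have e : t + 6 * j + 0 = t + 6 * j := rfl
    rw [e]
    omega
  · rw [if_pos (by norm_num)]
    have := h1 (t + 6 * j) (by omega)
    omega
  · rw [if_neg (by norm_num)]
    have h7 := h1 (t + 6 * j) (by omega)
    have h8 := h1 (t + 6 * j + 1) (by omega)
    have e : t + 6 * j + 2 = t + 6 * j + 1 + 1 := by ring
    rw [e]
    omega
  · rw [if_neg (by norm_num)]
    have := h3 (t + 6 * j) (by omega)
    omega
  · rw [if_neg (by norm_num)]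
    have := h4 (t + 6 * j) (by omega)
    omega
  · rw [if_neg (by norm_num)]
    have := h5 (t + 6 * j) (by omega)
    omega

end Pool.Agent.W_4f2e6f_h25
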